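import Pool.Agent.Run7.h841.FQ.Iface

/-!
# Project FQ (helper841), piece TOP: the projection, the lines and the fixed points
-/

set_option autoImplicit false

namespace Run7.h468.FQ
open Set Topology Run7.h841.FQ

theorem IsFlow.cont {Φ : ℝ → N5 → N5} (h : IsFlow Φ) : Continuous (fun p : ℝ × N5 => Φ p.1 p.2) :=
  h.smooth.continuous

theorem IsFlow.cont_right {Φ : ℝ → N5 → N5} (h : IsFlow Φ) (t : ℝ) : Continuous (fun x => Φ t x) :=
  (IsFlow.cont h).comp (continuous_const.prodMk continuous_id)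

theorem IsFlow.cont_left {Φ : ℝ → N5 → N5} (h : IsFlow Φ) (x : N5) : Continuous (fun t => Φ t x) :=
  (IsFlow.cont h).comp (continuous_id.prodMk continuous_const)

theorem IsFlow.neg_cancel {Φ : ℝ → N5 → N5} (h : IsFlow Φ) (t : ℝ) (x : N5) : Φ (-t) (Φ t x) = x := by
  rw [← h.add, neg_add_cancel, h.zero]

theorem IsFlow.cancel_neg {Φ : ℝ → N5 → N5} (h : IsFlow Φ) (t : ℝ) (x : N5) : Φ t (Φ (-t) x) = x := by
  rw [← h.add, add_neg_cancel, h.zero]

theorem IsFlow.equiv {Φ : ℝ → N5 → N5} (h : IsFlow Φ) : Equivalence (fun x y : N5 => ∃ t : ℝ, Φ t x = y) := by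
  refine ⟨fun x => ⟨0, h.zero x⟩, ?_, ?_⟩
  · rintro x y ⟨t, rfl⟩
    exact ⟨-t, IsFlow.neg_cancel h t x⟩
  · rintro x y z ⟨t, rfl⟩ ⟨s, rfl⟩
    exact ⟨s + t, h.add s t x⟩

theorem quo_exists (Q : Type) [TopologicalSpace Q] (Φ : ℝ → N5 → N5) (hf : IsFlow Φ)
    (h : Quot (fun x y : N5 => ∃ t : ℝ, Φ t x = y) ≃ₜ Q) : ∃ p : C(N5, Q), IsQuo Φ p := by
  have hq : Continuous (Quot.mk (fun x y : N5 => ∃ t : ℝ, Φ t x = y)) := continuous_quot_mk
  have heq : ∀ x y : N5, Quot.mk (fun x y : N5 => ∃ t : ℝ, Φ t x = y) x =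
      Quot.mk (fun x y : N5 => ∃ t : ℝ, Φ t x = y) y ↔ ∃ t, Φ t x = y := by
    intro x y
    rw [Quot.eq, (IsFlow.equiv hf).eqvGen_iff]
  refine ⟨⟨fun x => h (Quot.mk _ x), h.continuous.comp hq⟩, hf, ?_, ?_, ?_⟩
  · intro q
    obtain ⟨x, hx⟩ := Quot.exists_rep (h.symm q)
    refine ⟨x, ?_⟩
    show h (Quot.mk _ x) = q
    rw [hx, h.apply_symm_apply]
  · apply h.isOpenMap.comp
    intro U hU
    have hqm : IsQuotientMap (Quot.mk (fun x y : N5 => ∃ t : ℝ, Φ t x = y)) := isQuotientMap_quot_mk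
    rw [← hqm.isOpen_preimage]
    have e : Quot.mk (fun x y : N5 => ∃ t : ℝ, Φ t x = y) ⁻¹'
        (Quot.mk (fun x y : N5 => ∃ t : ℝ, Φ t x = y) '' U) = ⋃ t : ℝ, (fun x => Φ t x) ⁻¹' U := by
      ext x
      simp only [mem_preimage, mem_image, mem_iUnion]
      constructor
      · rintro ⟨y, hy, hyx⟩
        obtain ⟨t, ht⟩ := (heq y x).1 hyx
        refine ⟨-t, ?_⟩
        rw [← ht, IsFlow.neg_cancel hf]
        exact hy
      · rintro ⟨t, ht⟩
        exact ⟨Φ t x, ht, ((heq x _).2 ⟨t, rfl⟩).symm⟩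
    rw [e]
    exact isOpen_iUnion fun t => hU.preimage (IsFlow.cont_right hf t)
  · intro x y
    show h (Quot.mk _ x) = h (Quot.mk _ y) ↔ _
    rw [h.injective.eq_iff]
    exact heq x y

section two

variable {Q : Type} [TopologicalSpace Q] [T2Space Q] {Φ : ℝ → N5 → N5} {p : C(N5, Q)}

omit [T2Space Q] in
theorem p_flow (h : IsQuo Φ p) (t : ℝ) (x : N5) : p (Φ t x) = p x := ((h.fib x _).2 ⟨t, rfl⟩).symm

theorem tube (h : IsQuo Φ p) {q : Q} (hq : IsCompact (p ⁻¹' {q})) (W : Set N5) (hW : IsOpen W)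
    (hqW : p ⁻¹' {q} ⊆ W) : ∃ U, IsOpen U ∧ q ∈ U ∧ p ⁻¹' U ⊆ W := by
  obtain ⟨R, hR⟩ := hq.isBounded.subset_ball (0 : N5)
  set W' : Set N5 := W ∩ Metric.ball 0 R with hW'
  have hW'o : IsOpen W' := hW.inter Metric.isOpen_ball
  have hqW' : p ⁻¹' {q} ⊆ W' := subset_inter hqW hR
  have hb : Bornology.IsBounded W' := Metric.isBounded_ball.subset inter_subset_right
  have hfr : IsCompact (frontier W') :=
    Metric.isCompact_of_isClosed_isBounded isClosed_frontier (hb.closure.subset frontier_subset_closure)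
  have hcl : IsClosed (p '' frontier W') := (hfr.image p.continuous).isClosed
  refine ⟨p '' W' \ p '' frontier W', (h.opn _ hW'o).sdiff hcl, ⟨?_, ?_⟩, ?_⟩
  · obtain ⟨x, hx⟩ := h.surj q
    exact ⟨x, hqW' hx, hx⟩
  · rintro ⟨y, hy, hyq⟩
    have h1 : y ∈ W' := hqW' hyq
    exact (hW'o.inter_frontier_eq ▸ (⟨h1, hy⟩ : y ∈ W' ∩ frontier W') : y ∈ (∅ : Set N5))
  · rintro x ⟨⟨y, hy, hyx⟩, hx2⟩
    by_contra hxW
    have hxW' : x ∉ W' := fun h => hxW h.1
    obtain ⟨t, ht⟩ := (h.fib x y).1 hyx.symm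
    have hc : IsPreconnected (range fun t => Φ t x) := isPreconnected_range (IsFlow.cont_left h.flow x)
    have hdis : ∀ z ∈ range (fun t => Φ t x), z ∉ frontier W' := by
      rintro z ⟨s, hs⟩ hz
      apply hx2
      refine ⟨z, hz, ?_⟩
      rw [← hs]
      exact p_flow h s x
    have hcl' : ∀ z ∈ range (fun t => Φ t x), z ∉ W' → z ∉ closure W' := by
      intro z hz hzW hzc
      refine hdis z hz ⟨hzc, ?_⟩
      rwa [hW'o.interior_eq]
    obtain ⟨z, hz, hz1, hz2⟩ := hc W' (closure W')ᶜ hW'o isClosed_closure.isOpen_compl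
      (fun z hz => by
        by_cases hzW : z ∈ W'
        · exact Or.inl hzW
        · exact Or.inr (hcl' z hz hzW)) ⟨y, ⟨t, ht⟩, hy⟩
      ⟨x, ⟨0, h.flow.zero x⟩, hcl' x ⟨0, h.flow.zero x⟩ hxW'⟩
    exact hz2 (subset_closure hz1)

theorem part2 [CompactSpace Q] (h : IsQuo Φ p) : IsClosed (LL p) ∧ IsClosed (FX Φ p) ∧
    Disjoint (LL p) (FX Φ p) ∧ p ⁻¹' (FX Φ p) = {x | ∀ t, Φ t x = x} ∧
    (∀ K, IsClosed K → Disjoint K (LL p) → IsCompact (p ⁻¹' K)) ∧
    (∀ q, q ∉ LL p → ∀ W : Set N5, IsOpen W → p ⁻¹' {q} ⊆ W →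
      ∃ U, IsOpen U ∧ q ∈ U ∧ p ⁻¹' U ⊆ W) := by
  have hbd : ∀ q, q ∉ LL p → ∃ U, IsOpen U ∧ q ∈ U ∧ Bornology.IsBounded (p ⁻¹' U) := by
    intro q hq
    have hq' : IsCompact (p ⁻¹' {q}) := not_not.1 hq
    obtain ⟨R, hR⟩ := hq'.isBounded.subset_ball (0 : N5)
    obtain ⟨U, hU, hqU, hUW⟩ := tube h hq' _ Metric.isOpen_ball hR
    exact ⟨U, hU, hqU, Metric.isBounded_ball.subset hUW⟩
  have hfx : p ⁻¹' (FX Φ p) = {x | ∀ t, Φ t x = x} := by
    ext x
    constructor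
    · rintro ⟨y, hy, hyx⟩
      obtain ⟨s, hs⟩ := (h.fib y x).1 hyx
      have : y = x := by rw [← hs]; exact (hy s).symm
      rw [← this]
      exact hy
    · intro hx
      exact ⟨x, hx, rfl⟩
  refine ⟨?_, ?_, ?_, hfx, ?_, ?_⟩
  · rw [← isOpen_compl_iff, isOpen_iff_mem_nhds]
    intro q hq
    obtain ⟨U, hU, hqU, hb⟩ := hbd q hq
    refine Filter.mem_of_superset (hU.mem_nhds hqU) fun q' hq' => ?_
    show ¬ ¬ IsCompact (p ⁻¹' {q'})
    rw [not_not]
    exact Metric.isCompact_of_isClosed_isBounded (isClosed_singleton.preimage p.continuous)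
      (hb.subset (preimage_mono (singleton_subset_iff.2 hq')))
  · have hqm : IsQuotientMap p := h.opn.isQuotientMap p.continuous h.surj
    rw [← hqm.isClosed_preimage, hfx, Set.ofPred_forall]
    exact isClosed_iInter fun t => isClosed_eq (IsFlow.cont_right h.flow t) continuous_id
  · rw [disjoint_left]
    rintro q hq ⟨y, hy, rfl⟩
    apply hq
    have : p ⁻¹' {p y} = {y} := by
      ext x
      constructor
      · intro hx
        obtain ⟨s, hs⟩ := (h.fib y x).1 (Eq.symm hx)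
        rw [mem_singleton_iff, ← hs]
        exact hy s
      · rintro rfl
        rfl
    rw [this]
    exact isCompact_singleton
  · intro K hK hd
    refine Metric.isCompact_of_isClosed_isBounded (hK.preimage p.continuous) ?_
    refine hK.isCompact.induction_on (p := fun S => Bornology.IsBounded (p ⁻¹' S)) ?_ ?_ ?_ ?_
    · rw [preimage_empty]
      exact Bornology.isBounded_empty
    · intro s t hst ht
      exact ht.subset (preimage_mono hst)
    · intro s t hs ht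
      rw [preimage_union]
      exact hs.union ht
    · intro q hq
      obtain ⟨U, hU, hqU, hb⟩ := hbd q (disjoint_left.1 hd hq)
      exact ⟨U, mem_nhdsWithin_of_mem_nhds (hU.mem_nhds hqU), hb⟩
  · intro q hq W hW hqW
    exact tube h (not_not.1 hq) W hW hqW

end two

/-- **TOP** -/
theorem TOP : S_TOP :=
  ⟨fun Q _ _ Φ hf ⟨h⟩ => quo_exists Q Φ hf h, fun Q _ _ _ Φ p h => part2 h⟩

end Run7.h468.FQ
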